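import Pool.Agent.Q46.IP.ToolsS
import Pool.Agent.Q46.SL.LogInv

/-!
# Almost primes in the middle of long gaps in all short intervals: a residue, its inverse and its logarithm

The problem is on the primes in the intervals `[η, η + h]` with `h` larger than all powers of `log η`. For `h = p ≥ η ^ (1 /
K)`, `K` arbitrary, and for all `η` we find almost primes `η + x` in the MIDDLE of long gaps in this interval (all other
integers within `κ rankin(p)` are divisible by a prime `≤ log p`), simultaneously for `x` an exponent, a residue and its inverse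
modulo `p`.

Let `p` be a large prime. In all boxes with `(N0 N1 N2) ^ 4 ≥ p ^ (10 + ε) T`, `T` the order of `g` modulo `p`, there are many `x` such
that ALL THREE of the exponent `x`, the residue `u g ^ x` and the inverse `v g ^ (-x)` have the property.

Here the property is, with `y = η + x`: `y` has at most `R` prime factors, all larger than `M ^ κ`, while EVERY other integer
within distance `κ rankin(M)` of `y` has a prime factor `≤ log M`; `η` is an arbitrary integer, `|η| ≤ M ^ K`, and `rankin(M) =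
log M log₂ M log₄ M / (log₃ M) ^ 2`. (`M = p`)

Design and proof: helper46 (modules `Pool.Agent.Q46.IP.*`, `Pool.Agent.Q46.SL.*`): the Rankin covering argument with holes at the
pattern gives a modulus and a residue class in which everything else near the pattern is covered by the small primes; the sieve is
applied to the vectors of residues in this class, which are equidistributed with a power saving by bounds for exponential sums.
-/

set_option autoImplicit false

namespace Pool.Agent.Results.MP_293bbf_nt.IsolatedResidueInverseLogarithm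

open Finset Polynomial Filter
open Pool.Agent.Q46.SL hiding Almost
open Pool.Agent.Q46.IP (LoneS csS evI sysT adm_pair adm_one lone_tupleS lone_pairS lone_oneS)

/-- `n` is not zero and has at most `R` prime factors (counted with multiplicity), all larger than `z` -/
def Almost (z : ℝ) (R : ℕ) (n : ℤ) : Prop :=
  n ≠ 0 ∧ n.natAbs.primeFactorsList.length ≤ R ∧ ∀ q : ℕ, q.Prime → (q : ℤ) ∣ n → z < q

/-- Rankin's function `log M log₂ M log₄ M / (log₃ M) ^ 2` (iterated logarithms) -/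
noncomputable def rankin (M : ℝ) : ℝ :=
  Real.log M * Real.log (Real.log M) * Real.log (Real.log (Real.log (Real.log M))) /
    (Real.log (Real.log (Real.log M))) ^ 2

/-- `y` has at most `R` prime factors, all larger than `M ^ κ`, and every other integer `y + i` with
`|i| ≤ κ rankin(M)` has a prime factor `≤ log M` -/
def Isolated (κ M : ℝ) (R : ℕ) (y : ℤ) : Prop :=
  Almost (M ^ κ) R y ∧
    ∀ i : ℤ, |(i : ℝ)| ≤ κ * rankin M → i ≠ 0 → ∃ q : ℕ, q.Prime ∧ (q : ℝ) ≤ Real.log M ∧ (q : ℤ) ∣ y + i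

/-- In every short interval there are almost primes `η + x` in the middle of long gaps, for ALL THREE of an exponent `x`, a residue and its inverse. -/
theorem result (K : ℕ) (ε : ℝ) (hε : 0 < ε) (hε1 : ε ≤ 1) :
    ∃ κ : ℝ, 0 < κ ∧ ∃ R p₀ : ℕ, ∀ p : ℕ, p₀ ≤ p → ∀ [Fact p.Prime], ∀ η : ℤ, |(η : ℝ)| ≤ (p : ℝ) ^ K → ∀ (g u v : (ZMod p)ˣ) (A N : Fin 3 → ℕ),
      A 0 + N 0 ≤ orderOf g → A 1 + N 1 ≤ p → A 2 + N 2 ≤ p → (∀ j, (p : ℝ) ^ ε ≤ N j) →
      (p : ℝ) ^ (10 + ε) * ((orderOf g : ℕ) : ℝ) ≤ ((N 0 : ℝ) * N 1 * N 2) ^ 4 →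
      ∃ G : Finset ℕ, ((N 0 : ℝ) * N 1 * N 2 / (p : ℝ) ^ 2) * (p : ℝ) ^ (-ε) ≤ G.card ∧ ∀ x ∈ G,
          (A 0 ≤ x ∧ x < A 0 + N 0) ∧
          (A 1 ≤ ((u * g ^ x : (ZMod p)ˣ) : ZMod p).val ∧ ((u * g ^ x : (ZMod p)ˣ) : ZMod p).val < A 1 + N 1) ∧
          (A 2 ≤ ((v * (g ^ x)⁻¹ : (ZMod p)ˣ) : ZMod p).val ∧ ((v * (g ^ x)⁻¹ : (ZMod p)ˣ) : ZMod p).val < A 2 + N 2) ∧
          Isolated κ p R (η + x) ∧ Isolated κ p R (η + ((u * g ^ x : (ZMod p)ˣ) : ZMod p).val) ∧
          Isolated κ p R (η + ((v * (g ^ x)⁻¹ : (ZMod p)ˣ) : ZMod p).val) := by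
  obtain ⟨κ, hκ, cc, hcc, p₀, h⟩ := Pool.Agent.Q46.SL.loginv (LoneS 1 K : PE 1 0 1 × ℤ → ℝ → ℝ → ℤ → Prop)
    (fun k' M => M ^ (-(ε / (2 * (((3 : ℕ) : ℝ) + 1)) * k'))) (fun k' _ => csS 1 1 1 K (ε / (2 * (((3 : ℕ) : ℝ) + 1))) (by positivity) k') ε hε hε1
  obtain ⟨p₁, hp₁8, hp₁, hp₂⟩ := evI hcc hε hκ 3
  refine ⟨κ, hκ, ⌊((((K + 2) * (1 + 1) : ℕ)) : ℝ) / κ⌋₊, max p₁ p₀, ?_⟩
  intro p hp _ η hη g u v A N hA0 hA1 hA2 hN hN2
  have hpr : (p₁ : ℝ) ≤ p := by exact_mod_cast (le_max_left _ _).trans hp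
  have hord := ord_le' g
  obtain ⟨G, hG, hG2⟩ := h p ((le_max_right _ _).trans hp) (sysT ![0] adm_one, η) g u v A N hA0 hA1 hA2 hN hN2
  refine ⟨G, le_trans (hp₁ _ hpr _ (by positivity)) hG, ?_⟩
  intro x hx
  obtain ⟨a1, a2, a3, a4, a5, a6⟩ := hG2 x hx
  exact ⟨a1, a2, a3, lone_oneS hp₁8 hpr hη a4 (by exact_mod_cast (by omega : x ≤ p)),
    lone_oneS hp₁8 hpr hη a5 (by exact_mod_cast (ZMod.val_lt _).le), lone_oneS hp₁8 hpr hη a6 (by exact_mod_cast (ZMod.val_lt _).le)⟩

end Pool.Agent.Results.MP_293bbf_nt.IsolatedResidueInverseLogarithm
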