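import Pool.Agent.Q48.RD.One

/-!
# Primes and almost primes in the restricted digit subsets of short intervals

Let `g ≥ 2` be a base and `K` a large number of digits. For every `i < K` let `A i` be an arbitrary set of digits, such that the number
`|A 0| ⋯ |A (K - 1)|` of the integers `t < g ^ K` whose `i`-th digit belongs to `A i` for all `i < K` is at least `exp (- c K) g ^ K`
(`Rich`). Let `x` be a real number with `g ^ K ≤ x ≤ g ^ (E K)` (`E ≥ 1`). We consider the integers `n = ⌊x⌋ + 1 + t` with these `t`.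
They are in the interval `(x, x + y]` with `y = g ^ K`, which may be an arbitrarily small power of `x`, or even in a subset of it which
has only `y ^ (1 - δ)` elements.

At most `C |A 0| ⋯ |A (K - 1)| / log x` of these `n` are primes, and at least `κ |A 0| ⋯ |A (K - 1)| / log x` of them have at most `r`
prime factors, all larger than `y ^ (1 / r)`, unless there is an obvious obstruction (no digit `d` in `A 0` such that `⌊x⌋ + 1 + d` is
prime to `g`). The constants do not depend on `x` and on the sets `A i`.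

For `A i = {0, …, g - 1}` the first part says that `R (x, y)` is bounded.
-/

set_option autoImplicit false

namespace Pool.Agent.Results.MP_293bbf_nt.RestrictedDigits

open Filter Finset
open Pool.Agent.Q315.RD Pool.Agent.Q48.RD

/-- **Primes and almost primes in the restricted digit subsets of short intervals.** -/
theorem result (E : ℕ) :
    ∃ c : ℝ, 0 < c ∧ ∃ r₀ : ℕ, 2 ≤ r₀ ∧ ∀ r : ℕ, r₀ ≤ r → ∀ g : ℕ, 2 ≤ g → ∃ κ C : ℝ, 0 < κ ∧ 0 < C ∧
      ∀ᶠ K : ℕ in atTop, ∀ x : ℝ, (g : ℝ) ^ K ≤ x → x ≤ (g : ℝ) ^ (E * K) → ∀ A : ℕ → Finset ℕ, Rich c g K A →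
        (∀ t < g ^ K, x < ((⌊x⌋₊ + 1 + t : ℕ) : ℝ) ∧ ((⌊x⌋₊ + 1 + t : ℕ) : ℝ) ≤ x + (g : ℝ) ^ K) ∧
        (count g K A (fun t => (⌊x⌋₊ + 1 + t).Prime) : ℝ) ≤ C * choices K A / Real.log x ∧
        ((∃ d ∈ A 0, (⌊x⌋₊ + 1 + d).Coprime g) →
          κ * choices K A / Real.log x ≤ count g K A (fun t => AlmostPrime (g ^ K) r (⌊x⌋₊ + 1 + t))) := by
  obtain ⟨c, hc, r₀, hr₀, h1⟩ := oneLin (E + 1)
  refine ⟨c, hc, r₀, hr₀, fun r hr g hg => ?_⟩
  obtain ⟨κ, C, hκ, hC, h2⟩ := h1 r hr g hg
  obtain ⟨W, hW, h3⟩ := oneV_unit g hg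
  have hg1 : (1 : ℝ) < g := by exact_mod_cast (by omega : 1 < g)
  have hlg : 0 < Real.log g := Real.log_pos hg1
  refine ⟨κ * Real.log g, C * W * (E * Real.log g) + 1, by positivity, by positivity, ?_⟩
  filter_upwards [h2, h3, eventually_ge_atTop 1] with K hK hV hK1
  intro x hx1 hx2 A hA
  have hK0 : (0 : ℝ) < K := by exact_mod_cast hK1
  have hcs : (0 : ℝ) ≤ choices K A := Nat.cast_nonneg _
  have hgK : (1 : ℝ) < (g : ℝ) ^ K := one_lt_pow₀ hg1 (by omega)
  have hx0 : 0 < x := by linarith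
  have hlogx : 0 < Real.log x := Real.log_pos (by linarith)
  have hlow : K * Real.log g ≤ Real.log x := by
    rw [← Real.log_pow]
    exact Real.log_le_log (by positivity) hx1
  have hupp : Real.log x ≤ E * K * Real.log g := by
    have h4 := Real.log_le_log hx0 hx2
    rw [Real.log_pow] at h4
    push_cast at h4
    exact h4
  have hfl : (⌊x⌋₊ : ℝ) ≤ x := Nat.floor_le hx0.le
  have hfl2 : x < (⌊x⌋₊ : ℝ) + 1 := Nat.lt_floor_add_one x
  have hflE : ⌊x⌋₊ ≤ g ^ (E * K) := by
    have h4 : (⌊x⌋₊ : ℝ) ≤ ((g ^ (E * K) : ℕ) : ℝ) := by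
      push_cast
      linarith
    exact_mod_cast h4
  have hEE : 2 * g ^ (E * K) ≤ g ^ ((E + 1) * K) := by
    rw [add_mul, one_mul, pow_add, mul_comm]
    exact Nat.mul_le_mul_left _ (hg.trans (Nat.le_self_pow (by omega) g))
  have hpos : 1 ≤ g ^ (E * K) := Nat.one_le_pow _ _ (by omega)
  obtain ⟨h5, h6⟩ := hK 1 ((⌊x⌋₊ : ℤ) + 1) (fun t => ⌊x⌋₊ + 1 + t)
    (by rw [abs_one]; exact_mod_cast (by omega : 1 ≤ g ^ ((E + 1) * K)))
    (by
      rw [abs_of_nonneg (by positivity)]
      exact_mod_cast (by omega : ⌊x⌋₊ + 1 ≤ g ^ ((E + 1) * K)))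
    isCoprime_one_left (fun t _ => by push_cast; ring) (fun t _ => by omega) A hA
  refine ⟨fun t ht => ?_, ?_, fun hd => ?_⟩
  · have ht' : (t : ℝ) + 1 ≤ (g : ℝ) ^ K := by exact_mod_cast ht
    push_cast
    have : (0 : ℝ) ≤ t := Nat.cast_nonneg t
    constructor <;> linarith
  · refine h6.trans ?_
    rw [le_div_iff₀ hlogx]
    have hKi : (0 : ℝ) ≤ W / K := by positivity
    calc C * oneV 1 (g ^ K) * choices K A * Real.log x ≤ C * (W / K) * choices K A * (E * K * Real.log g) := by
          apply mul_le_mul _ hupp hlogx.le (by positivity)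
          exact mul_le_mul_of_nonneg_right (mul_le_mul_of_nonneg_left (hV 1 isUnit_one) hC.le) hcs
      _ = C * W * (E * Real.log g) * choices K A := by field_simp
      _ ≤ (C * W * (E * Real.log g) + 1) * choices K A := mul_le_mul_of_nonneg_right (by linarith) hcs
  · refine le_trans ?_ (h5 hd).2
    rw [div_le_div_iff₀ hlogx hK0]
    calc κ * Real.log g * choices K A * K = κ * choices K A * (K * Real.log g) := by ring
      _ ≤ κ * choices K A * Real.log x := mul_le_mul_of_nonneg_left hlow (by positivity)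

end Pool.Agent.Results.MP_293bbf_nt.RestrictedDigits
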