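import Mathlib
import Pool.Agent.Q46.CM.Final2
import Pool.Agent.Q46.CM.Exist

/-!
# Q1 in the random models which take small primes into account

Sieved random model (Cramér, Granville): in the dyadic block `[2 ^ j, 2 ^ (j + 1))` remove the integers with a prime
factor `≤ z j`, and keep the other integers `n` independently, each with probability `min 1 (1 / (V (z j) log n))`,
`V z = ∏_{p ≤ z} (1 - 1/p)`, so that the density near `n` is `1 / log n` as for the primes. (`z j = 1` is Cramér's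
own model.) Let `R(x, y)` be the number of kept integers in `(x, x + y]` divided by `y / log x`. We show

* if `z j ≤ j ^ D` for a fixed `D`, that is, if the sieve level is at most a fixed power of `log n`, then the assertion
  of Q1 holds almost surely: for every `ε > 0` there is `N` with `|R(x, y) - 1| ≤ ε` for all large `x` and all
  `y` in `[(log x) ^ N, x]`;
* if `z j = j ^ o(1)`, that is, if the sieve level is `(log n) ^ o(1)`, every `N > 2` is admissible for every `ε`;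
* if `z j ≥ j ^ α` for some `α > 0` (and `z j = o(j)`), then for every `B` almost surely
  `R(x, (log x) ^ B) ≤ 1 - δ(α, B)` for arbitrarily large `x`: Maier's phenomenon, and `N` must depend on `ε`.

Ingredients: the fundamental lemma of the sieve (`Pool.Agent.H373R2.T7.Fund`), intervals of length `z ^ U` with few
integers free of prime factors `≤ z` (`Pool.Agent.H318R2.Cr.lowInt`, starting files), a Chernoff bound and the
Borel-Cantelli lemma (`Pool.Agent.Q46.CM`).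
-/

set_option autoImplicit false

namespace Pool.Agent.Results.MP_293bbf_nt.UniformLawInSievedModel

open Filter Topology MeasureTheory ProbabilityTheory Pool.Agent.H318R2.Cr Pool.Agent.Q46.CM

universe u

/-- `R(x, y)` for the kept integers `{n | ω ∈ A n}`: their number in `(x, x + y]` divided by `y / log x`. -/
noncomputable def R {Ω : Type u} (A : ℕ → Set Ω) (ω : Ω) (x y : ℝ) : ℝ :=
  ({n : ℕ | x < n ∧ (n : ℝ) ≤ x + y ∧ ω ∈ A n}.ncard : ℝ) / (y / Real.log x)

/-- (0) The sieved model exists for every `z`. (1) Q1 holds almost surely in it for every level `z j ≤ j ^ D`.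
(2) If `z j = j ^ o(1)`, every exponent `N > 2` will do. (3) If `j ^ α ≤ z j = o(j)`, no fixed exponent will do:
`R (x, (log x) ^ B) ≤ 1 - δ` for arbitrarily large `x`. -/
theorem result :
    (∀ z : ℕ → ℕ, ∃ (μ : Measure (ℕ → Bool)) (A : ℕ → Set (ℕ → Bool)), IsSievedModel μ z A) ∧
    (∀ D : ℕ, ∃ N : ℝ → ℝ, (∀ ε, 1 < N ε) ∧ ∀ z : ℕ → ℕ, (∀ᶠ j : ℕ in atTop, z j ≤ j ^ D) →
      ∀ (Ω : Type u) [MeasurableSpace Ω] (μ : Measure Ω) (A : ℕ → Set Ω), IsSievedModel μ z A →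
        ∀ᵐ ω ∂μ, ∀ ε : ℝ, 0 < ε → ∃ x₀ : ℝ, ∀ x : ℝ, x₀ ≤ x →
          ∀ y : ℝ, (Real.log x) ^ N ε ≤ y → y ≤ x → |R A ω x y - 1| ≤ ε) ∧
    (∀ z : ℕ → ℕ, (∀ K : ℕ, ∀ᶠ j : ℕ in atTop, z j ^ K ≤ j) → ∀ N : ℝ, 2 < N →
      ∀ (Ω : Type u) [MeasurableSpace Ω] (μ : Measure Ω) (A : ℕ → Set Ω), IsSievedModel μ z A →
        ∀ᵐ ω ∂μ, ∀ ε : ℝ, 0 < ε → ∃ x₀ : ℝ, ∀ x : ℝ, x₀ ≤ x →
          ∀ y : ℝ, (Real.log x) ^ N ≤ y → y ≤ x → |R A ω x y - 1| ≤ ε) ∧
    (∀ α B : ℝ, 0 < α → 0 < B → ∃ δ : ℝ, 0 < δ ∧ ∀ z : ℕ → ℕ, (∀ᶠ j : ℕ in atTop, (j : ℝ) ^ α ≤ z j) →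
      Tendsto (fun j : ℕ => (z j : ℝ) / j) atTop (𝓝 0) →
      ∀ (Ω : Type u) [MeasurableSpace Ω] (μ : Measure Ω) (A : ℕ → Set Ω), IsSievedModel μ z A →
        ∀ᵐ ω ∂μ, ∀ x₀ : ℝ, ∃ x : ℝ, x₀ ≤ x ∧ R A ω x ((Real.log x) ^ B) ≤ 1 - δ) :=
  ⟨exists_model, final1, fun _ hz N hN _ _ _ _ hA => final2 hA hz N hN, final3⟩

end Pool.Agent.Results.MP_293bbf_nt.UniformLawInSievedModel
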